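import Pool.Agent.Helper91K1.PQ.Stm3

/-!
# Sets of uniformly positive density in all intervals at all large stages
-/

set_option autoImplicit false

open MeasureTheory Set Filter Topology

namespace Pool.Agent.Helper95.PQ

theorem lim_lower {α : Type*} [MeasurableSpace α] (μ : Measure α) [IsFiniteMeasure μ]
    (E : ℕ → Set α) (hm : ∀ i, MeasurableSet (E i)) (d : ℝ)
    (h : ∀ᶠ i in atTop, d ≤ μ.real (E i)) :
    d ≤ μ.real {x | ∃ᶠ n in atTop, x ∈ E n} := by
  let U : ℕ → Set α := fun k => ⋃ i, ⋃ (_ : k ≤ i), E i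
  have hUm : ∀ k, MeasurableSet (U k) := fun k =>
    MeasurableSet.iUnion fun i => MeasurableSet.iUnion fun hi => hm i
  obtain ⟨n₀, hn₀⟩ := eventually_atTop.1 h
  have hUlow : ∀ k, d ≤ μ.real (U k) := by
    intro k
    refine (hn₀ (max n₀ k) (le_max_left _ _)).trans ?_
    refine measureReal_mono ?_ (measure_ne_top _ _)
    exact subset_iUnion_of_subset (max n₀ k)
      (subset_iUnion_of_subset (le_max_right _ _) subset_rfl)
  have hset : {x | ∃ᶠ n in atTop, x ∈ E n} = ⋂ k, U k := by
    ext x
    simp only [Set.mem_ofPred_eq, mem_iInter, U, mem_iUnion, frequently_atTop]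
    constructor
    · intro h k
      obtain ⟨i, h1, h2⟩ := h k
      exact ⟨i, h1, h2⟩
    · intro h k
      obtain ⟨i, h1, h2⟩ := h k
      exact ⟨i, h1, h2⟩
  rw [hset]
  have hanti : Antitone U := by
    intro k l hkl
    refine iUnion_subset fun i => iUnion_subset fun hi => ?_
    exact subset_iUnion_of_subset i (subset_iUnion_of_subset (hkl.trans hi) subset_rfl)
  have hlim := tendsto_measure_iInter_atTop (μ := μ) (fun k => (hUm k).nullMeasurableSet) hanti
    ⟨0, measure_ne_top _ _⟩
  have hlim2 := (ENNReal.tendsto_toReal (measure_ne_top μ (⋂ k, U k))).comp hlim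
  exact ge_of_tendsto' hlim2 hUlow

/-- LIM -/
theorem t_LIM : Pool.Agent.Helper91K1.PQ.S_LIM := by
  intro c R hc F hF h
  have hWm : MeasurableSet {x : ℝ | ∃ᶠ n in atTop, x ∈ F n} := by
    have : {x : ℝ | ∃ᶠ n in atTop, x ∈ F n} = ⋂ k : ℕ, ⋃ i : ℕ, ⋃ (_ : k ≤ i), F i := by
      ext x
      simp only [Set.mem_ofPred_eq, mem_iInter, mem_iUnion, frequently_atTop]
      constructor
      · intro h k
        obtain ⟨i, h1, h2⟩ := h k
        exact ⟨i, h1, h2⟩
      · intro h k
        obtain ⟨i, h1, h2⟩ := h k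
        exact ⟨i, h1, h2⟩
    rw [this]
    exact MeasurableSet.iInter fun k => MeasurableSet.iUnion fun i => MeasurableSet.iUnion fun _ => hF i
  set W := {x : ℝ | ∃ᶠ n in atTop, x ∈ F n} with hWdef
  have h1 := Besicovitch.ae_tendsto_measure_inter_div_of_measurableSet (volume : Measure ℝ) hWm
  filter_upwards [h1] with u hu huR
  by_contra hnW
  have hnW' : u ∉ W := hnW
  rw [indicator_of_notMem hnW'] at hu
  have hr₀ : 0 < min (u + R) (R - u) := lt_min (by linarith [huR.1]) (by linarith [huR.2])
  have h2 : ∀ᶠ r in nhdsWithin (0 : ℝ) (Ioi 0), ENNReal.ofReal c ≤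
      volume (W ∩ Metric.closedBall u r) / volume (Metric.closedBall u r) := by
    filter_upwards [Ioo_mem_nhdsGT hr₀] with r hr1
    have hra : r < u + R := lt_of_lt_of_le hr1.2 (min_le_left _ _)
    have hrb : r < R - u := lt_of_lt_of_le hr1.2 (min_le_right _ _)
    have hrp : 0 < r := hr1.1
    have : IsFiniteMeasure (volume.restrict (Set.Icc (u - r) (u + r))) := inferInstance
    have hreal : ∀ S : Set ℝ, MeasurableSet S →
        (volume.restrict (Set.Icc (u - r) (u + r))).real S = volume.real (S ∩ Set.Icc (u - r) (u + r)) := by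
      intro S hS
      rw [measureReal_restrict_apply hS]
    have key := lim_lower (volume.restrict (Set.Icc (u - r) (u + r))) F hF (c * (2 * r)) (by
      filter_upwards [h (u - r) (u + r) (by linarith) (by linarith) (by linarith)] with i hi
      rw [hreal _ (hF i)]
      refine le_trans (le_of_eq ?_) hi
      ring)
    rw [hreal _ hWm] at key
    have hball : Metric.closedBall u r = Set.Icc (u - r) (u + r) := Real.closedBall_eq_Icc
    rw [ENNReal.le_div_iff_mul_le]
    · rw [hball, Real.volume_Icc, ← ENNReal.ofReal_mul hc.le]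
      have e1 : u + r - (u - r) = 2 * r := by ring
      rw [e1]
      refine (ENNReal.ofReal_le_ofReal key).trans ?_
      exact ENNReal.ofReal_toReal_le
    · left
      exact (Metric.measure_closedBall_pos volume u hrp).ne'
    · left
      exact measure_closedBall_lt_top.ne
  have h3 := ge_of_tendsto hu h2
  rw [nonpos_iff_eq_zero, ENNReal.ofReal_eq_zero] at h3
  linarith

end Pool.Agent.Helper95.PQ
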